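import Pool.Agent.P.MP_77a832_co.KB.Rich

/-! The selection step. -/

set_option autoImplicit false

namespace Pool.Agent.P.MP_77a832_co.KB

open Finset

namespace Par

variable {α : Type*} [DecidableEq α] {P : Par α} {K n : ℝ}

lemma Ok.sel (h : P.Ok K) (hT : Two P.A) {J : ℕ} {c r om η : ℝ}
    [DecidablePred fun B => r ≤ (P.R B).card]
    (hm : 2 * (c * 16 ^ J) ≤ ((range (16 ^ J)).filter fun B => r ≤ (P.R B).card).card)
    (hr : 4 * 16 ^ P.k1 * (c * (n / 8 ^ J)) ≤ r)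
    (hb : big (range (16 ^ J)) P.R om ≤ η * n * 4 ^ J) :
    ∃ F s t Y, Sel P.A (up P.u P.d) J n c om η F s t Y := by
  have h1 := fun B => best hT (up_mono h.mo P.d1) P.k1 B (P.R B) fun p hp => (mem_R.1 hp).2.2
  rw [up_up] at h1
  choose s t hs ht hY using h1
  set F := (range (16 ^ J)).filter fun B => r ≤ (P.R B).card
  have h2 : ((F.filter fun B => s B ≤ t B).card : ℝ) + (F.filter fun B => ¬ s B ≤ t B).card =
      F.card := by exact_mod_cast card_filter_add_card_filter_not _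
  have h3 : ∀ B ∈ F, c * (n / 8 ^ J) ≤ (P.R B ∩ (P.A (s B) \ P.A (t B))).card := fun B hB =>
    le_of_mul_le_mul_left (hr.trans ((mem_filter.1 hB).2.trans (hY B))) (by positivity)
  have h4 : ∀ F' ⊆ F, big F' (fun B => P.R B ∩ (P.A (s B) \ P.A (t B))) om ≤ η * n * 4 ^ J :=
    fun F' hF => (big_mono om (hF.trans (filter_subset _ _)) fun _ => inter_subset_left).trans hb
  have h5 : ∀ B ∈ F, B < 16 ^ J := fun B hB => mem_range.1 (mem_filter.1 hB).1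
  rcases le_total (c * 16 ^ J) (F.filter fun B => s B ≤ t B).card with c1 | c1
  · exact ⟨_, s, t, _, fun B hB => h5 B (mem_filter.1 hB).1, c1,
      fun B hB => ⟨(hs B).1, (mem_filter.1 hB).2, (ht B).2⟩,
      Or.inl fun B _ => inter_subset_right, fun B hB => h3 B (mem_filter.1 hB).1,
      h4 _ (filter_subset _ _)⟩
  · exact ⟨F.filter fun B => ¬ s B ≤ t B, t, s, _, fun B hB => h5 B (mem_filter.1 hB).1,
      by linarith, fun B hB => ⟨(ht B).1, (not_le.1 (mem_filter.1 hB).2).le, (hs B).2⟩,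
      Or.inr fun B _ => inter_subset_right, fun B hB => h3 B (mem_filter.1 hB).1,
      h4 _ (filter_subset _ _)⟩

lemma Ok.fin (h : P.Ok K) (hT : Two P.A) {J c2 : ℕ} (hJ : J = P.d + c2) {ε D η : ℝ} (ε0 : 0 < ε)
    (ε1 : ε ≤ K) (hD : D = K * (K ^ 2 / ε) ^ 4) (hη : 0 < η) (h0 : 0 < n)
    (hn : ((act P.A (P.u 0) (P.u (16 ^ (J + P.d)))).card : ℝ) ≤ n)
    (e1 : P.Hl = ε * (n / 8 ^ J) / (2 ^ P.d) ^ 3) (e2 : P.Hm = D * (n / 8 ^ (J + P.d)))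
    (e3 : P.G = D * (n / 8 ^ J)) (e4 : P.ρ = 2 * D ^ 3 * (n / 8 ^ J) / (ε ^ 2 * 2 ^ P.d))
    (e5 : P.γ = ε * 2 ^ P.d / K) (k1 : (K ^ 3 / ε) ^ 4 * K / ε ≤ 2 ^ P.k1)
    (k2 : (K + 32 * K ^ 2 * D ^ 3 / ε ^ 4) / η ≤ 2 ^ c2)
    (hl : 8 * (ε * (n * 2 ^ (J + P.d))) ≤ ∑ i ∈ range (16 ^ (J + P.d)), ((P.Y i).card : ℝ)) :
    ∃ F s t Y, Sel P.A (up P.u P.d) J n (min (ε / (2 * K * D)) (ε ^ 4 / (4 * 16 ^ P.k1 * K ^ 4 * D ^ 3)))
      (16 * K * D ^ 2 * 2 ^ c2 / ε ^ 2 * (n / 16 ^ J)) η F s t Y := by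
  classical
  have hK := h.hK
  have K0 : 0 < K := by linarith
  have D0 : 0 < D := by rw [hD]; positivity
  have hz : 1 ≤ K ^ 3 / ε :=
    (one_le_div ε0).2 (ε1.trans (le_self_pow₀ hK (by norm_num)))
  have hc : (2 : ℝ) ^ P.d = 2 ^ P.k1 * 2 ^ P.d1 := pow_add _ _ _
  have hh : (2 : ℝ) ^ J = 2 ^ P.d * 2 ^ c2 := by rw [hJ, pow_add]
  have e6 : (K ^ 3 / ε) ^ 4 * 2 ^ P.d1 ≤ P.γ := by
    rw [e5, hc]
    calc _ = ε * ((K ^ 3 / ε) ^ 4 * K / ε * 2 ^ P.d1) / K := by field_simp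
      _ ≤ _ := by gcongr
  have a1 := h.total h0 hn (E := K ^ 2 / ε) (by positivity) hz (by rw [e2, hD]) (by rw [e3, hD]) e6
  have a2 := h.many J (r := ε ^ 4 * (n / 8 ^ J) / (K ^ 4 * D ^ 3)) (τ := ε * (n / 8 ^ J) * 2 ^ P.d)
    (by positivity) (le_of_eq (by rw [e3]; field_simp))
  have hb : ((act P.A (up P.u P.d 0) (up P.u P.d (16 ^ J))).card : ℝ) ≤ n := by
    simpa only [up, zero_mul, ← pow_add] using hn
  have a3 := h.big_le (range (16 ^ J))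
  have a4 : ∑ B ∈ range (16 ^ J), ((P.R B).card : ℝ) ≤ K * n * 2 ^ J :=
    le_trans (sum_le_sum fun B _ => Nat.cast_le.2 (card_le_card fun q hq => (mem_R.1 hq).1))
      (top_sum hK h.star (up_mono h.mo P.d) hb)
  refine h.sel hT (r := ε ^ 4 * (n / 8 ^ J) / (K ^ 4 * D ^ 3)) ?_ ?_ ?_
  · generalize (((range (16 ^ J)).filter fun B =>
      ε ^ 4 * (n / 8 ^ J) / (K ^ 4 * D ^ 3) ≤ (P.R B).card).card : ℝ) = m at a2 ⊢
    have t1 : (16 : ℝ) ^ J * (16 ^ P.d * P.Hl) = ε * (n * 2 ^ (J + P.d)) := by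
      rw [e1, sixteen, sixteen, eight, pow_add]; field_simp
    have t2 : K * n * 2 ^ (J + P.d) / (K ^ 2 / ε) ≤ ε * (n * 2 ^ (J + P.d)) :=
      calc _ = ε * (n * 2 ^ (J + P.d)) / K := by field_simp
        _ ≤ _ := div_le_self (by positivity) hK
    have t3 : K * 2 ^ P.d * (K * n * 2 ^ J / (K ^ 2 / ε)) = ε * (n * 2 ^ (J + P.d)) := by
      rw [pow_add]; field_simp
    have t4 : (16 : ℝ) ^ J * (2 * (P.Hm * P.G * P.G) / (P.Hl * P.ρ)) =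
        ε * (n * 2 ^ (J + P.d)) := by
      rw [e1, e2, e3, e4, sixteen, eight, eight, pow_add]; field_simp
    have t5 : P.γ * (K * n * 2 ^ J) = ε * (n * 2 ^ (J + P.d)) := by
      rw [e5, pow_add]; field_simp
    have t6 : K ^ 2 * 2 ^ P.d1 / (K ^ 3 / ε) * (K * n * 2 ^ (J + P.k1)) =
        ε * (n * 2 ^ (J + P.d)) := by
      rw [pow_add, pow_add, hc]; field_simp
    have t7 : (16 : ℝ) ^ J * (ε * (n / 8 ^ J) * 2 ^ P.d) = ε * (n * 2 ^ (J + P.d)) := by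
      rw [sixteen, eight, pow_add]; field_simp
    have t8 : ε * (n * 2 ^ (J + P.d)) ≤ m * (K * 2 ^ P.d * P.G) := by linarith
    refine le_of_mul_le_mul_right (le_trans ?_ t8) (show 0 < K * 2 ^ P.d * P.G by
      rw [e3]; positivity)
    calc _ ≤ 2 * (ε / (2 * K * D) * 16 ^ J) * (K * 2 ^ P.d * P.G) := by
          have := h.g0
          gcongr
          exact min_le_left _ _
      _ = _ := by rw [e3, sixteen, eight, pow_add]; field_simp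
  · calc _ ≤ 4 * 16 ^ P.k1 * (ε ^ 4 / (4 * 16 ^ P.k1 * K ^ 4 * D ^ 3) * (n / 8 ^ J)) := by
          gcongr
          exact min_le_right _ _
      _ = _ := by field_simp
  · have t1 : 8 * (P.Hm * P.G) / (P.γ * P.Hl / 2) =
        16 * K * D ^ 2 * 2 ^ c2 / ε ^ 2 * (n / 16 ^ J) := by
      rw [e1, e2, e3, e5, sixteen, eight, eight, pow_add, hh]; field_simp; norm_num
    have t2 : 8 * P.ρ / (P.γ * P.Hl / 2) = 32 * K * D ^ 3 / ε ^ 4 * 2 ^ P.d := by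
      rw [e1, e4, e5]; field_simp; norm_num
    rw [t1, t2] at a3
    have t3 : (1 : ℝ) ≤ 2 ^ P.d := one_le_pow₀ one_le_two
    calc _ ≤ (2 ^ P.d + 32 * K * D ^ 3 / ε ^ 4 * 2 ^ P.d) * (K * n * 2 ^ J) :=
          a3.trans (by gcongr)
      _ = η * n * (2 ^ J * (2 ^ P.d * ((K + 32 * K ^ 2 * D ^ 3 / ε ^ 4) / η))) := by field_simp
      _ ≤ η * n * (2 ^ J * (2 ^ P.d * 2 ^ c2)) := by gcongr
      _ = _ := by rw [← hh, four, sq]

end Par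

theorem q_SEL : S_SEL := by
  intro K hK
  have K0 : 0 < K := by linarith
  obtain ⟨k0, hk0⟩ := pow_unbounded_of_one_lt (4 * K ^ 2) (one_lt_two (α := ℝ))
  obtain ⟨ε, hε⟩ : ∃ ε : ℝ, ε = K / (32 * 16 ^ k0 * 16 ^ k0) := ⟨_, rfl⟩
  have ε0 : 0 < ε := by rw [hε]; positivity
  have ε1 : ε ≤ K := by
    have h1 : (1 : ℝ) ≤ 16 ^ k0 := one_le_pow₀ (by norm_num)
    rw [hε]
    exact div_le_self K0.le (by nlinarith)
  obtain ⟨D, hD⟩ : ∃ D : ℝ, D = K * (K ^ 2 / ε) ^ 4 := ⟨_, rfl⟩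
  have D0 : 0 < D := by rw [hD]; positivity
  obtain ⟨k1, hk1⟩ := pow_unbounded_of_one_lt ((K ^ 3 / ε) ^ 4 * K / ε) (one_lt_two (α := ℝ))
  refine ⟨k0, min (ε / (2 * K * D)) (ε ^ 4 / (4 * 16 ^ k1 * K ^ 4 * D ^ 3)), by positivity,
    fun η hη => ?_⟩
  obtain ⟨c2, hc2⟩ := pow_unbounded_of_one_lt ((K + 32 * K ^ 2 * D ^ 3 / ε ^ 4) / η)
    (one_lt_two (α := ℝ))
  refine ⟨16 * K * D ^ 2 * 2 ^ c2 / ε ^ 2, c2 + k1, by positivity,
    fun J hJ α _ x A w n h0 hw hO hB hT hS hn hl => ?_⟩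
  obtain ⟨d1, hd⟩ : ∃ d1, J = k1 + d1 + c2 := ⟨J - (c2 + k1), by omega⟩
  have hv := up_mono hw c2
  obtain ⟨s, t, hst, hnet⟩ := nets hB hT hv k0 (16 ^ (J + (k1 + d1)))
  have e1 : 16 ^ (2 * J + k0) = 16 ^ (J + (k1 + d1)) * 16 ^ k0 * 16 ^ c2 := by
    rw [← pow_add, ← pow_add]; congr 1; omega
  have e2 : (2 : ℝ) ^ (2 * J + k0) = 2 ^ (J + (k1 + d1)) * 2 ^ k0 * 2 ^ c2 := by
    rw [← pow_add, ← pow_add]; congr 1; omega
  have e3 : up w (J + k0) = up (up (up w c2) k0) (k1 + d1) := by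
    rw [up_up, up_up]; congr 1; omega
  have hn' : ((act A (up (up w c2) k0 0) (up (up w c2) k0 (16 ^ (J + (k1 + d1))))).card : ℝ) ≤ n := by
    simpa only [up, zero_mul, ← e1] using hn
  rw [e3]
  refine Par.Ok.fin (P := ⟨x, A, up (up w c2) k0, s, t, d1, k1,
      ε * (n / 8 ^ J) / (2 ^ (k1 + d1)) ^ 3, D * (n / 8 ^ (J + (k1 + d1))), D * (n / 8 ^ J),
      2 * D ^ 3 * (n / 8 ^ J) / (ε ^ 2 * 2 ^ (k1 + d1)), ε * 2 ^ (k1 + d1) / K⟩)
    ⟨hK, up_mono hv k0, hO, hB, hS, hst, by positivity, by positivity, by positivity,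
      by positivity, by positivity⟩ hT hd ε0 ε1 hD hη h0 hn' rfl rfl rfl rfl rfl hk1.le hc2.le ?_
  show 8 * (ε * (n * 2 ^ (J + (k1 + d1)))) ≤
    ∑ i ∈ range (16 ^ (J + (k1 + d1))), ((A (s i) \ A (t i)).card : ℝ)
  have a1 := top_sum hK hS (up_mono hv k0) hn'
  rw [e1, e2, sum_ch] at hl
  have a2 := hl.trans (sum_le_sum fun V _ => sum_ch_le hK hS hw c2 V)
  rw [← mul_sum] at a2
  have a3 : 2 * (K * n * 2 ^ (J + (k1 + d1))) ≤
      ∑ i ∈ range (16 ^ (J + (k1 + d1)) * 16 ^ k0), ((win A (up w c2) i).card : ℝ) := by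
    refine le_of_mul_le_mul_left (le_trans ?_ a2) (show 0 < K * 2 ^ c2 by positivity)
    calc _ = n * (2 ^ (J + (k1 + d1)) * (4 * K ^ 2) * 2 ^ c2) / 2 := by ring
      _ ≤ _ := by gcongr
  refine le_of_mul_le_mul_left ?_ (show (0 : ℝ) < 4 * 16 ^ k0 * 16 ^ k0 by positivity)
  have a4 : 4 * 16 ^ k0 * 16 ^ k0 * (8 * (ε * (n * 2 ^ (J + (k1 + d1))))) =
      K * n * 2 ^ (J + (k1 + d1)) := by
    rw [hε]; field_simp; norm_num
  linarith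

end Pool.Agent.P.MP_77a832_co.KB
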