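import Pool.Agent.P.MP_77a832_co.KB.Defs

/-! Windows, children, consequences of the fourth power bound. -/

set_option autoImplicit false

namespace Pool.Agent.P.MP_77a832_co.KB

open Finset

variable {α : Type*} [DecidableEq α] {A : ℕ → Finset α} {v : ℕ → ℕ} {K n : ℝ}

lemma act_mono {a b a' b' : ℕ} (h1 : a' ≤ a) (h2 : b ≤ b') : act A a b ⊆ act A a' b' := by
  intro p hp
  rw [mem_act] at hp ⊢
  obtain ⟨⟨t, h3, h4, h5⟩, ⟨s, h6, h7, h8⟩⟩ := hp
  exact ⟨⟨t, by omega, by omega, h5⟩, ⟨s, by omega, by omega, h8⟩⟩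

lemma sd_sub {a b s t : ℕ} (h1 : a ≤ s) (h2 : s ≤ b) (h3 : a ≤ t) (h4 : t ≤ b) :
    A s \ A t ⊆ act A a b := fun _ hp =>
  mem_act.2 ⟨⟨s, h1, h2, (mem_sdiff.1 hp).1⟩, ⟨t, h3, h4, (mem_sdiff.1 hp).2⟩⟩

lemma Bal.sd (h : Bal A) (s t : ℕ) : (A s \ A t).card = (A t \ A s).card :=
  card_sdiff_comm (h s t)

/-- the children of the window `V`, `d` levels down -/
def ch (d V : ℕ) : Finset ℕ := Ico (V * 16 ^ d) ((V + 1) * 16 ^ d)

lemma mem_ch {d V i : ℕ} : i ∈ ch d V ↔ i / 16 ^ d = V := by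
  have h : 0 < 16 ^ d := by positivity
  rw [ch, mem_Ico, ← Nat.le_div_iff_mul_le h, ← Nat.div_lt_iff_lt_mul h]
  omega

lemma card_ch (d V : ℕ) : (ch d V).card = 16 ^ d := by
  rw [ch, Nat.card_Ico, add_mul, one_mul, Nat.add_sub_cancel_left]

lemma sum_ch (f : ℕ → ℝ) (d M : ℕ) :
    ∑ i ∈ range (M * 16 ^ d), f i = ∑ V ∈ range M, ∑ i ∈ ch d V, f i := by
  induction M with
  | zero => simp
  | succ M ih =>
    rw [sum_range_succ, ← ih, ch, range_eq_Ico, range_eq_Ico, sum_Ico_consecutive]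
    · exact Nat.zero_le _
    · exact Nat.mul_le_mul_right _ (Nat.le_succ M)

lemma up_mono (hv : Monotone v) (d : ℕ) : Monotone (up v d) :=
  fun _ _ h => hv (Nat.mul_le_mul_right _ h)

lemma up_up (v : ℕ → ℕ) (d e : ℕ) : up (up v d) e = up v (e + d) := by
  funext i; simp only [up, pow_add, mul_assoc]

lemma ch_bd (hv : Monotone v) {d V i : ℕ} (h : i ∈ ch d V) :
    up v d V ≤ v i ∧ v (i + 1) ≤ up v d (V + 1) := by
  rw [ch, mem_Ico] at h
  exact ⟨hv h.1, hv h.2⟩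

lemma win_sub (hv : Monotone v) {d V i : ℕ} (h : i ∈ ch d V) :
    win A v i ⊆ win A (up v d) V := act_mono (ch_bd hv h).1 (ch_bd hv h).2

lemma le_of_four {a b : ℝ} (hb : 0 ≤ b) (h : a ^ 4 ≤ b ^ 4) : a ≤ b :=
  le_of_pow_le_pow_left₀ (by norm_num) hb h

lemma sixteen (d : ℕ) : (16 : ℝ) ^ d = (2 ^ d) ^ 4 := by
  rw [← pow_mul, mul_comm, pow_mul]; norm_num

lemma eight (d : ℕ) : (8 : ℝ) ^ d = (2 ^ d) ^ 3 := by
  rw [← pow_mul, mul_comm, pow_mul]; norm_num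

lemma four (d : ℕ) : (4 : ℝ) ^ d = (2 ^ d) ^ 2 := by
  rw [← pow_mul, mul_comm, pow_mul]; norm_num

lemma star_ch (hS : Star K A) (hv : Monotone v) (d V : ℕ) (Z : Finset α) :
    (∑ i ∈ ch d V, ((Z ∩ win A v i).card : ℝ)) ^ 4 ≤
      K ^ 4 * Z.card * ((win A (up v d) V).card : ℝ) ^ 3 * (2 ^ d) ^ 4 := by
  have h := hS v _ _ (ch d V) Z hv fun i hi => ch_bd hv hi
  rw [card_ch, Nat.cast_pow, Nat.cast_ofNat, sixteen] at h
  exact h

lemma sum_ch_le (hK : 1 ≤ K) (hS : Star K A) (hv : Monotone v) (d V : ℕ) :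
    ∑ i ∈ ch d V, ((win A v i).card : ℝ) ≤ K * 2 ^ d * (win A (up v d) V).card := by
  have h := star_ch hS hv d V (win A (up v d) V)
  rw [sum_congr rfl fun i hi => by rw [inter_eq_right.2 (win_sub hv hi)]] at h
  exact le_of_four (by positivity) (h.trans_eq (by ring))

lemma top_le (hS : Star K A) (hv : Monotone v) {M : ℕ}
    (hn : ((act A (v 0) (v M)).card : ℝ) ≤ n) {F : Finset ℕ} (hF : F ⊆ range M) {T : ℝ}
    (hT : 0 ≤ T) (h : K ^ 4 * n ^ 4 * F.card ≤ T ^ 4) :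
    ∑ i ∈ F, ((win A v i).card : ℝ) ≤ T := by
  have hb : ∀ i ∈ F, v 0 ≤ v i ∧ v (i + 1) ≤ v M := fun i hi =>
    ⟨hv (Nat.zero_le _), hv (mem_range.1 (hF hi))⟩
  have h1 := hS v _ _ F (act A (v 0) (v M)) hv hb
  rw [sum_congr rfl fun i hi => by
    rw [inter_eq_right.2 (show win A v i ⊆ _ from act_mono (hb i hi).1 (hb i hi).2)]] at h1
  refine le_of_four hT (h1.trans (le_trans ?_ h))
  have h2 : ((act A (v 0) (v M)).card : ℝ) ^ 4 ≤ n ^ 4 := by gcongr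
  calc _ = K ^ 4 * ((act A (v 0) (v M)).card : ℝ) ^ 4 * F.card := by ring
    _ ≤ _ := by gcongr

lemma top_sum (hK : 1 ≤ K) (hS : Star K A) (hv : Monotone v) {j : ℕ}
    (hn : ((act A (v 0) (v (16 ^ j))).card : ℝ) ≤ n) :
    ∑ i ∈ range (16 ^ j), ((win A v i).card : ℝ) ≤ K * n * 2 ^ j := by
  have h0 : 0 ≤ n := le_trans (Nat.cast_nonneg _) hn
  refine top_le hS hv hn subset_rfl (by positivity) (le_of_eq ?_)
  rw [card_range, Nat.cast_pow, Nat.cast_ofNat, sixteen]; ring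

/-- heavy windows carry little activity -/
lemma heavy (hK : 1 ≤ K) (hS : Star K A) (hv : Monotone v) {j : ℕ} (h0 : 0 < n)
    (hn : ((act A (v 0) (v (16 ^ j))).card : ℝ) ≤ n) {E : ℝ} (hE : 0 < E) :
    ∑ i ∈ range (16 ^ j), (if K * E ^ 4 * (n / 8 ^ j) < (win A v i).card then
      ((win A v i).card : ℝ) else 0) ≤ K * n * 2 ^ j / E := by
  rw [← sum_filter]
  set F := (range (16 ^ j)).filter fun i => K * E ^ 4 * (n / 8 ^ j) < (win A v i).card
  have h1 : (F.card : ℝ) * (K * E ^ 4 * (n / 8 ^ j)) ≤ K * n * 2 ^ j := by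
    refine le_trans ?_ (top_sum hK hS hv hn)
    refine le_trans ?_ (sum_le_sum_of_subset_of_nonneg (filter_subset _ _ : F ⊆ _)
      fun _ _ _ => Nat.cast_nonneg _)
    rw [← nsmul_eq_mul]
    exact card_nsmul_le_sum _ _ _ fun i hi => (mem_filter.1 hi).2.le
  refine top_le hS hv hn (filter_subset _ _) (by positivity) ?_
  have h2 : (F.card : ℝ) ≤ (2 ^ j) ^ 4 / E ^ 4 := by
    rw [eight] at h1
    have h3 : (0 : ℝ) < K * E ^ 4 * (n / (2 ^ j) ^ 3) := by positivity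
    refine ((le_div_iff₀ h3).2 h1).trans_eq ?_
    field_simp
  calc _ ≤ K ^ 4 * n ^ 4 * ((2 ^ j) ^ 4 / E ^ 4) := by gcongr
    _ = _ := by ring

/-- number of children of `V` in which `p` is active -/
def vis (A : ℕ → Finset α) (v : ℕ → ℕ) (d : ℕ) (p : α) (V : ℕ) : ℕ :=
  ((ch d V).filter fun i => p ∈ win A v i).card

lemma sum_vis (Z : Finset α) (d V : ℕ) :
    ∑ i ∈ ch d V, ((Z ∩ win A v i).card : ℝ) = ∑ p ∈ Z, (vis A v d p V : ℝ) := by
  simp only [vis, card_filter, ← filter_mem_eq_inter, Nat.cast_sum]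
  exact sum_comm

/-- points with many visits carry little activity -/
lemma up_one (hK : 1 ≤ K) (hS : Star K A) (hv : Monotone v) (d V : ℕ) {z lam : ℝ} (hz : 1 ≤ z)
    (hl : z ^ 4 * 2 ^ d ≤ lam) :
    ∑ i ∈ ch d V, (((win A v i).filter fun p => lam ≤ vis A v d p V).card : ℝ) ≤
      K ^ 2 * 2 ^ d / z * (win A (up v d) V).card := by
  set Z := (win A (up v d) V).filter fun p => lam ≤ vis A v d p V with hZ
  have e : ∀ i ∈ ch d V, ((win A v i).filter fun p => lam ≤ vis A v d p V) = Z ∩ win A v i := by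
    intro i hi
    ext p
    simp only [hZ, mem_filter, mem_inter]
    exact ⟨fun h => ⟨⟨win_sub hv hi h.1, h.2⟩, h.1⟩, fun h => ⟨h.2, h.1.2⟩⟩
  rw [sum_congr rfl fun i hi => by rw [e i hi]]
  have h1 := star_ch hS hv d V Z
  have h2 : (Z.card : ℝ) * lam ≤ ∑ i ∈ ch d V, ((Z ∩ win A v i).card : ℝ) := by
    rw [sum_vis, ← nsmul_eq_mul]
    exact card_nsmul_le_sum _ _ _ fun p hp => (mem_filter.1 hp).2
  have hT : 0 ≤ ∑ i ∈ ch d V, ((Z ∩ win A v i).card : ℝ) :=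
    sum_nonneg fun _ _ => Nat.cast_nonneg _
  generalize ∑ i ∈ ch d V, ((Z ∩ win A v i).card : ℝ) = T at h1 h2 hT
  have hU : (0 : ℝ) ≤ (win A (up v d) V).card := Nat.cast_nonneg _
  generalize ((win A (up v d) V).card : ℝ) = U at h1 hU
  have hc : (0 : ℝ) < 2 ^ d := by positivity
  generalize (2 : ℝ) ^ d = c at h1 hl hc
  rcases hT.eq_or_lt with rfl | hT
  · positivity
  have h3 : (Z.card : ℝ) ≤ T / (z ^ 4 * c) := by
    rw [le_div_iff₀ (by positivity)]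
    exact le_trans (by gcongr) h2
  have h4 : T ^ 3 ≤ K ^ 4 * U ^ 3 * c ^ 3 / z ^ 4 := by
    refine le_of_mul_le_mul_left ?_ hT
    calc T * T ^ 3 = T ^ 4 := by ring
      _ ≤ K ^ 4 * (T / (z ^ 4 * c)) * U ^ 3 * c ^ 4 := h1.trans (by gcongr)
      _ = _ := by field_simp
  refine le_of_pow_le_pow_left₀ (n := 3) (by norm_num) (by positivity) (h4.trans ?_)
  have h5 : K ^ 4 ≤ K ^ 6 := pow_le_pow_right₀ hK (by norm_num)
  have h6 : z ^ 3 ≤ z ^ 4 := pow_le_pow_right₀ hz (by norm_num)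
  calc _ ≤ K ^ 6 * U ^ 3 * c ^ 3 / z ^ 3 := by gcongr
    _ = _ := by field_simp

/-- the best boundary and the best of the four net steps -/
lemma best (hT : Two A) (hv : Monotone v) (k V : ℕ) (Z : Finset α)
    (hZ : ∀ p ∈ Z, 2 ≤ vis A v k p V) :
    ∃ s t, (up v k V ≤ s ∧ s ≤ up v k (V + 1)) ∧ (up v k V ≤ t ∧ t ≤ up v k (V + 1)) ∧
      (Z.card : ℝ) ≤ 4 * 16 ^ k * (Z ∩ (A s \ A t)).card := by
  have hab : up v k V ≤ up v k (V + 1) := up_mono hv k (Nat.le_succ V)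
  obtain ⟨⟨s, t⟩, hm, hmax⟩ := exists_max_image
    (Icc (up v k V) (up v k (V + 1)) ×ˢ Icc (up v k V) (up v k (V + 1)))
    (fun st => (Z ∩ (A st.1 \ A st.2)).card) ⟨(up v k V, up v k V), by simp [hab]⟩
  simp only [mem_product, mem_Icc] at hm hmax
  refine ⟨s, t, hm.1, hm.2, ?_⟩
  have h1 : Z ⊆ (ch k V).biUnion fun i =>
      Z ∩ (act A (up v k V) (v (i + 1)) ∩ act A (v (i + 1)) (up v k (V + 1))) := by
    intro p hp
    obtain ⟨i, hi, j, hj, hij⟩ := one_lt_card.1 (hZ p hp)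
    rw [mem_filter] at hi hj
    wlog hlt : i < j generalizing i j
    · exact this j hj i hi hij.symm (by omega)
    refine mem_biUnion.2 ⟨i, hi.1, mem_inter.2 ⟨hp, mem_inter.2 ⟨?_, ?_⟩⟩⟩
    · exact act_mono (ch_bd hv hi.1).1 le_rfl hi.2
    · exact act_mono (hv hlt) (ch_bd hv hj.1).2 hj.2
  have h2 : ∀ i ∈ ch k V,
      (Z ∩ (act A (up v k V) (v (i + 1)) ∩ act A (v (i + 1)) (up v k (V + 1)))).card ≤
        4 * (Z ∩ (A s \ A t)).card := by
    intro i hi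
    have b1 : up v k V ≤ v (i + 1) := (ch_bd hv hi).1.trans (hv (Nat.le_succ i))
    have b2 := (ch_bd hv hi).2
    obtain ⟨r1, r2, r3, r4, c1, c2, c3, c4, h⟩ := hT _ _ _ b1 b2
    have h3 : Z ∩ (act A (up v k V) (v (i + 1)) ∩ act A (v (i + 1)) (up v k (V + 1))) ⊆
        (Z ∩ (A (v (i + 1)) \ A r1) ∪ Z ∩ (A (v (i + 1)) \ A r2)) ∪
          (Z ∩ (A r3 \ A (v (i + 1))) ∪ Z ∩ (A r4 \ A (v (i + 1)))) := by
      intro p hp
      rw [mem_inter, mem_inter] at hp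
      have := h p hp.2.1 hp.2.2
      simp only [mem_union, mem_inter]
      tauto
    have m1 := hmax (v (i + 1), r1) ⟨⟨b1, b2⟩, ⟨c1.1, c1.2.trans b2⟩⟩
    have m2 := hmax (v (i + 1), r2) ⟨⟨b1, b2⟩, ⟨b1.trans c2.1, c2.2⟩⟩
    have m3 := hmax (r3, v (i + 1)) ⟨⟨c3.1, c3.2.trans b2⟩, ⟨b1, b2⟩⟩
    have m4 := hmax (r4, v (i + 1)) ⟨⟨b1.trans c4.1, c4.2⟩, ⟨b1, b2⟩⟩
    have u1 := card_le_card h3
    have u2 := card_union_le (Z ∩ (A (v (i + 1)) \ A r1) ∪ Z ∩ (A (v (i + 1)) \ A r2))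
      (Z ∩ (A r3 \ A (v (i + 1))) ∪ Z ∩ (A r4 \ A (v (i + 1))))
    have u3 := card_union_le (Z ∩ (A (v (i + 1)) \ A r1)) (Z ∩ (A (v (i + 1)) \ A r2))
    have u4 := card_union_le (Z ∩ (A r3 \ A (v (i + 1)))) (Z ∩ (A r4 \ A (v (i + 1))))
    simp only at m1 m2 m3 m4
    omega
  have h3 := (card_le_card h1).trans (card_biUnion_le_card_mul _ _ _ h2)
  rw [card_ch] at h3
  have h4 : (Z.card : ℝ) ≤ ((16 ^ k * (4 * (Z ∩ (A s \ A t)).card) : ℕ) : ℝ) := by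
    exact_mod_cast h3
  refine h4.trans_eq ?_
  push_cast; ring

/-- F1: net steps -/
lemma nets (hB : Bal A) (hT : Two A) (hv : Monotone v) (k M : ℕ) :
    ∃ s t : ℕ → ℕ, (∀ V, up v k V ≤ s V ∧ s V ≤ t V ∧ t V ≤ up v k (V + 1)) ∧
      ∑ i ∈ range (M * 16 ^ k), ((win A v i).card : ℝ) ≤
        ∑ V ∈ range M, ((win A (up v k) V).card : ℝ) +
          4 * 16 ^ k * 16 ^ k * ∑ V ∈ range M, ((A (s V) \ A (t V)).card : ℝ) := by
  have h : ∀ V, ∃ s t, (up v k V ≤ s ∧ s ≤ t ∧ t ≤ up v k (V + 1)) ∧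
      ∑ i ∈ ch k V, ((win A v i).card : ℝ) ≤
        (win A (up v k) V).card + 4 * 16 ^ k * 16 ^ k * ((A s \ A t).card : ℝ) := by
    intro V
    set Z := (win A (up v k) V).filter fun p => 2 ≤ vis A v k p V with hZ
    obtain ⟨s, t, hs, ht, h⟩ := best hT hv k V Z fun p hp => (mem_filter.1 hp).2
    have h1 : ∑ i ∈ ch k V, ((win A v i).card : ℝ) ≤
        (win A (up v k) V).card + 16 ^ k * (Z.card : ℝ) := by
      have e := sum_vis (A := A) (v := v) (win A (up v k) V) k V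
      rw [sum_congr rfl fun i hi => by rw [inter_eq_right.2 (win_sub hv hi)]] at e
      rw [e, hZ, card_filter, card_eq_sum_ones]
      push_cast
      rw [mul_sum, ← sum_add_distrib]
      refine sum_le_sum fun p _ => ?_
      have h2 : (vis A v k p V : ℝ) ≤ 16 ^ k := by
        have := (card_filter_le (ch k V) fun i => p ∈ win A v i).trans_eq (card_ch k V)
        exact_mod_cast this
      split_ifs with h3
      · linarith
      · have : (vis A v k p V : ℝ) ≤ 1 := by exact_mod_cast (by omega : vis A v k p V ≤ 1)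
        linarith
    have h2 : (Z.card : ℝ) ≤ 4 * 16 ^ k * (A s \ A t).card :=
      h.trans (by gcongr; exact inter_subset_right)
    have h3 : ∑ i ∈ ch k V, ((win A v i).card : ℝ) ≤
        (win A (up v k) V).card + 4 * 16 ^ k * 16 ^ k * ((A s \ A t).card : ℝ) :=
      h1.trans (by
        have : (16 : ℝ) ^ k * Z.card ≤ 16 ^ k * (4 * 16 ^ k * (A s \ A t).card) := by gcongr
        linarith)
    rcases le_total s t with hst | hst
    · exact ⟨s, t, ⟨hs.1, hst, ht.2⟩, h3⟩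
    · exact ⟨t, s, ⟨ht.1, hst, hs.2⟩, by rwa [hB.sd t s]⟩
  choose s t h1 h2 using h
  refine ⟨s, t, h1, ?_⟩
  rw [sum_ch, mul_sum, ← sum_add_distrib]
  exact sum_le_sum fun V _ => h2 V

end Pool.Agent.P.MP_77a832_co.KB
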