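import Mathlib

/-! Sweeps of finite sets: active points, windows, and the statement of the selection step. -/

set_option autoImplicit false

namespace Pool.Agent.P.MP_77a832_co.KB

open Finset

variable {α : Type*} [DecidableEq α]

/-- points whose status changes during the times `[a, b]` -/
def act (A : ℕ → Finset α) (a b : ℕ) : Finset α :=
  ((Icc a b).biUnion A).filter fun p => ∃ t ∈ Icc a b, p ∉ A t

lemma mem_act {A : ℕ → Finset α} {a b : ℕ} {p : α} :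
    p ∈ act A a b ↔ (∃ t, a ≤ t ∧ t ≤ b ∧ p ∈ A t) ∧ ∃ t, a ≤ t ∧ t ≤ b ∧ p ∉ A t := by
  simp only [act, mem_filter, mem_biUnion, mem_Icc, and_assoc]

/-- active points of the window number `i` for the boundaries `v` -/
def win (A : ℕ → Finset α) (v : ℕ → ℕ) (i : ℕ) : Finset α := act A (v i) (v (i + 1))

/-- boundaries `d` levels higher -/
def up (v : ℕ → ℕ) (d : ℕ) : ℕ → ℕ := fun i => v (i * 16 ^ d)

/-- entering points lie left of leaving points -/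
def Ord (x : α → ℝ) (A : ℕ → Finset α) : Prop :=
  ∀ s t, s ≤ t → ∀ p ∈ A t \ A s, ∀ q ∈ A s \ A t, x p < x q

/-- balanced -/
def Bal (A : ℕ → Finset α) : Prop := ∀ s t, (A s).card = (A t).card

/-- points active on both sides of `s` are caught by four net steps -/
def Two (A : ℕ → Finset α) : Prop := ∀ a s b, a ≤ s → s ≤ b →
  ∃ r1 r2 r3 r4, (a ≤ r1 ∧ r1 ≤ s) ∧ (s ≤ r2 ∧ r2 ≤ b) ∧ (a ≤ r3 ∧ r3 ≤ s) ∧ (s ≤ r4 ∧ r4 ≤ b) ∧
    ∀ p ∈ act A a s, p ∈ act A s b →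
      p ∈ A s \ A r1 ∨ p ∈ A s \ A r2 ∨ p ∈ A r3 \ A s ∨ p ∈ A r4 \ A s

/-- the fourth power bound inside every window `[a, b]` -/
def Star (K : ℝ) (A : ℕ → Finset α) : Prop :=
  ∀ (v : ℕ → ℕ) (a b : ℕ) (F : Finset ℕ) (Z : Finset α), Monotone v →
    (∀ i ∈ F, a ≤ v i ∧ v (i + 1) ≤ b) →
    (∑ i ∈ F, ((Z ∩ win A v i).card : ℝ)) ^ 4 ≤
      K ^ 4 * Z.card * ((act A a b).card : ℝ) ^ 3 * F.card

/-- triples `(B, B1, q)` with `q ∈ Y B ∩ Y B1` and `B = B1` or a large overlap -/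
noncomputable def big (F : Finset ℕ) (Y : ℕ → Finset α) (om : ℝ) : ℝ :=
  ∑ B ∈ F, ∑ B1 ∈ F, if B = B1 ∨ om < (Y B ∩ Y B1).card then ((Y B ∩ Y B1).card : ℝ) else 0

/-- output of the selection step; `v` are the boundaries of the `16 ^ J` base windows -/
structure Sel (A : ℕ → Finset α) (v : ℕ → ℕ) (J : ℕ) (n c om η : ℝ) (F : Finset ℕ)
    (s t : ℕ → ℕ) (Y : ℕ → Finset α) : Prop where
  sub : ∀ B ∈ F, B < 16 ^ J
  many : c * 16 ^ J ≤ F.card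
  time : ∀ B ∈ F, v B ≤ s B ∧ s B ≤ t B ∧ t B ≤ v (B + 1)
  side : (∀ B ∈ F, Y B ⊆ A (s B) \ A (t B)) ∨ ∀ B ∈ F, Y B ⊆ A (t B) \ A (s B)
  size : ∀ B ∈ F, c * (n / 8 ^ J) ≤ (Y B).card
  few : big F Y om ≤ η * n * 4 ^ J

/-- F1, RICH, OVER, SEL -/
def S_SEL : Prop := ∀ K : ℝ, 1 ≤ K → ∃ (k0 : ℕ) (c : ℝ), 0 < c ∧ ∀ η : ℝ, 0 < η →
  ∃ (C : ℝ) (J0 : ℕ), 0 < C ∧ ∀ J ≥ J0, ∀ (α : Type) [DecidableEq α] (x : α → ℝ)
    (A : ℕ → Finset α) (w : ℕ → ℕ) (n : ℝ), 0 < n → Monotone w → Ord x A → Bal A → Two A →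
    Star K A → ((act A (w 0) (w (16 ^ (2 * J + k0)))).card : ℝ) ≤ n →
    n * 2 ^ (2 * J + k0) / 2 ≤ ∑ i ∈ range (16 ^ (2 * J + k0)), ((win A w i).card : ℝ) →
    ∃ F s t Y, Sel A (up w (J + k0)) J n c (C * (n / 16 ^ J)) η F s t Y

end Pool.Agent.P.MP_77a832_co.KB
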