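import Pool.Agent.P.MP_77a832_co.KB.Basic

/-! Monotone counts, disjointness of steps, overlap of two windows. -/

set_option autoImplicit false

namespace Pool.Agent.P.MP_77a832_co.KB

open Finset

variable {α : Type*} [DecidableEq α] {A : ℕ → Finset α} {v : ℕ → ℕ} {x : α → ℝ}

/-- `Φ` is an initial part for all steps inside `[a, b]` -/
def Ini (A : ℕ → Finset α) (Φ : α → Prop) (a b : ℕ) : Prop :=
  ∀ s t, a ≤ s → s ≤ t → t ≤ b → ∀ q ∈ A s \ A t, Φ q → ∀ p ∈ A t \ A s, Φ p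

lemma inc_eq (Φ : α → Prop) [DecidablePred Φ] (S T : Finset α) :
    ((T.filter Φ).card : ℝ) - (S.filter Φ).card =
      (((T \ S).filter Φ).card : ℝ) - ((S \ T).filter Φ).card := by
  have h : ∀ S T : Finset α, (S.filter Φ).card =
      ((S \ T).filter Φ).card + ((S ∩ T).filter Φ).card := fun S T => by
    rw [← card_union_of_disjoint (disjoint_filter_filter (disjoint_sdiff_inter S T)),
      ← filter_union, sdiff_union_inter]
  rw [h S T, h T S, inter_comm T S]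
  push_cast; ring

lemma step_eq (hB : Bal A) {Φ : α → Prop} [DecidablePred Φ] {a b s t : ℕ} (h : Ini A Φ a b)
    (h1 : a ≤ s) (h2 : s ≤ t) (h3 : t ≤ b) :
    0 ≤ (((A t).filter Φ).card : ℝ) - ((A s).filter Φ).card ∧
    (((A t \ A s).filter Φ).card : ℝ) * ((A s \ A t).filter fun q => ¬ Φ q).card =
      (A s \ A t).card * ((((A t).filter Φ).card : ℝ) - ((A s).filter Φ).card) := by
  rw [inc_eq]
  have e : (((A s \ A t).filter Φ).card : ℝ) + ((A s \ A t).filter fun q => ¬ Φ q).card =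
      (A s \ A t).card := by exact_mod_cast card_filter_add_card_filter_not Φ
  rcases ((A s \ A t).filter Φ).eq_empty_or_nonempty with h0 | ⟨q, hq⟩
  · rw [h0, card_empty, Nat.cast_zero, zero_add] at e
    rw [h0, e, card_empty, Nat.cast_zero, sub_zero]
    exact ⟨Nat.cast_nonneg _, mul_comm _ _⟩
  · rw [mem_filter] at hq
    rw [filter_true_of_mem (h s t h1 h2 h3 q hq.1 hq.2), ← hB.sd s t]
    have := (Nat.cast_nonneg ((A s \ A t).filter fun q => ¬ Φ q).card : (0 : ℝ) ≤ _)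
    exact ⟨by linarith, by rw [← e]; ring⟩

/-- MONO -/
lemma mono_sum (hB : Bal A) (hv : Monotone v) {Φ : α → Prop} [DecidablePred Φ] {d V : ℕ}
    (h : Ini A Φ (up v d V) (up v d (V + 1))) {s t : ℕ → ℕ}
    (hst : ∀ i, v i ≤ s i ∧ s i ≤ t i ∧ t i ≤ v (i + 1)) {F : Finset ℕ} (hF : F ⊆ ch d V) {H : ℝ}
    (h0 : 0 ≤ H) (hH : ∀ i ∈ F, ((A (s i) \ A (t i)).card : ℝ) ≤ H) :
    ∑ i ∈ F, (((A (t i) \ A (s i)).filter Φ).card : ℝ) *
      ((A (s i) \ A (t i)).filter fun q => ¬ Φ q).card ≤ H * (win A (up v d) V).card := by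
  set f : ℕ → ℝ := fun t => (((A t).filter Φ).card : ℝ) with hf
  have mo : ∀ s t, up v d V ≤ s → s ≤ t → t ≤ up v d (V + 1) → f s ≤ f t :=
    fun s t h1 h2 h3 => sub_nonneg.1 (step_eq hB h h1 h2 h3).1
  have h1 : ∀ i ∈ F, (((A (t i) \ A (s i)).filter Φ).card : ℝ) *
      ((A (s i) \ A (t i)).filter fun q => ¬ Φ q).card ≤ H * (f (v (i + 1)) - f (v i)) := by
    intro i hi
    obtain ⟨b1, b2⟩ := ch_bd hv (hF hi)
    obtain ⟨c1, c2, c3⟩ := hst i
    obtain ⟨e1, e2⟩ := step_eq hB h (b1.trans c1) c2 (c3.trans b2)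
    rw [e2]
    have m1 := mo _ _ b1 c1 (c2.trans (c3.trans b2))
    have m2 := mo _ _ (b1.trans (c1.trans c2)) c3 b2
    exact mul_le_mul (hH i hi) (by simp only [hf] at m1 m2 ⊢; linarith) e1 h0
  refine (sum_le_sum h1).trans ?_
  rw [← mul_sum]
  refine mul_le_mul_of_nonneg_left ?_ h0
  have h2 : ∑ i ∈ F, (f (v (i + 1)) - f (v i)) ≤ ∑ i ∈ ch d V, (f (v (i + 1)) - f (v i)) :=
    sum_le_sum_of_subset_of_nonneg hF fun i hi _ =>
      sub_nonneg.2 (mo _ _ (ch_bd hv hi).1 (hv (Nat.le_succ i)) (ch_bd hv hi).2)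
  have hle : up v d V ≤ up v d (V + 1) := up_mono hv d (Nat.le_succ V)
  have h3 : ∑ i ∈ ch d V, (f (v (i + 1)) - f (v i)) = f (up v d (V + 1)) - f (up v d V) :=
    sum_Ico_sub (fun i => f (v i)) (Nat.mul_le_mul_right _ (Nat.le_succ V))
  rw [h3] at h2
  refine h2.trans ?_
  simp only [hf]
  rw [inc_eq]
  have h4 : ((A (up v d (V + 1)) \ A (up v d V)).filter Φ).card ≤ (win A (up v d) V).card :=
    card_le_card ((filter_subset _ _).trans (sd_sub hle le_rfl le_rfl hle))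
  have h5 : (((A (up v d (V + 1)) \ A (up v d V)).filter Φ).card : ℝ) ≤
    (win A (up v d) V).card := by exact_mod_cast h4
  have := (Nat.cast_nonneg ((A (up v d V) \ A (up v d (V + 1))).filter Φ).card : (0 : ℝ) ≤ _)
  linarith

/-- a pair is exchanged in one step only -/
lemma step_uniq (hO : Ord x A) (hv : Monotone v) {s t : ℕ → ℕ}
    (hst : ∀ i, v i ≤ s i ∧ s i ≤ t i ∧ t i ≤ v (i + 1)) {i j : ℕ} {p q : α}
    (h1 : p ∈ A (t i) \ A (s i)) (h2 : q ∈ A (s i) \ A (t i))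
    (h3 : p ∈ A (t j) \ A (s j)) (h4 : q ∈ A (s j) \ A (t j)) : i = j := by
  by_contra hij
  wlog hlt : i < j generalizing i j
  · exact this h3 h4 h1 h2 (Ne.symm hij) (by omega)
  have a1 := hO _ _ (hst i).2.1 p h1 q h2
  rw [mem_sdiff] at h1 h2 h3 h4
  have a2 := hO (t i) (s j) ((hst i).2.2.trans ((hv hlt).trans (hst j).1)) q
    (mem_sdiff.2 ⟨h4.1, h2.2⟩) p (mem_sdiff.2 ⟨h1.1, h3.2⟩)
  linarith

lemma ini_left (hO : Ord x A) (z : ℝ) (a b : ℕ) : Ini A (fun p => x p ≤ z) a b :=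
  fun s t _ h _ q hq hz p hp => (hO s t h p hp q hq).le.trans hz

/-- the points outside another window form an initial part -/
lemma ini_other (hO : Ord x A) {a b a1 b1 : ℕ} (h : b1 ≤ a ∨ b ≤ a1) :
    ∃ Φ : α → Prop, Ini A Φ a b ∧ (∀ q ∈ act A a1 b1, ¬ Φ q) ∧
      ∀ s t, a ≤ s → s ≤ t → t ≤ b → ∀ q ∈ A s \ A t, q ∈ act A a1 b1 →
        ∀ p ∈ A t \ A s, p ∉ act A a1 b1 → Φ p := by
  rcases h with h | h
  · refine ⟨fun p => ∀ u, a1 ≤ u → u ≤ b1 → p ∉ A u, ?_, ?_, ?_⟩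
    · intro s t h1 h2 _ q hq hΦ p hp u u1 u2 hu
      have a1 := hO s t h2 p hp q hq
      rw [mem_sdiff] at hp hq
      have a2 := hO u s (by omega) q (mem_sdiff.2 ⟨hq.1, hΦ u u1 u2⟩) p (mem_sdiff.2 ⟨hu, hp.2⟩)
      linarith
    · intro q hq hΦ
      obtain ⟨u, u1, u2, hu⟩ := (mem_act.1 hq).1
      exact hΦ u u1 u2 hu
    · intro s t h1 h2 _ q hq hq1 p hp hp1 u u1 u2 hu
      obtain ⟨r, r1, r2, hr⟩ := (mem_act.1 hq1).2
      have hpr : p ∈ A r := by
        by_contra hc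
        exact hp1 (mem_act.2 ⟨⟨u, u1, u2, hu⟩, ⟨r, r1, r2, hc⟩⟩)
      have a1 := hO s t h2 p hp q hq
      rw [mem_sdiff] at hp hq
      have a2 := hO r s (by omega) q (mem_sdiff.2 ⟨hq.1, hr⟩) p (mem_sdiff.2 ⟨hpr, hp.2⟩)
      linarith
  · refine ⟨fun p => ∀ u, a1 ≤ u → u ≤ b1 → p ∈ A u, ?_, ?_, ?_⟩
    · intro s t _ h2 h3 q hq hΦ p hp u u1 u2
      by_contra hu
      have a1 := hO s t h2 p hp q hq
      rw [mem_sdiff] at hp hq
      have a2 := hO t u (by omega) q (mem_sdiff.2 ⟨hΦ u u1 u2, hq.2⟩) p (mem_sdiff.2 ⟨hp.1, hu⟩)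
      linarith
    · intro q hq hΦ
      obtain ⟨u, u1, u2, hu⟩ := (mem_act.1 hq).2
      exact hu (hΦ u u1 u2)
    · intro s t _ h2 h3 q hq hq1 p hp hp1 u u1 u2
      by_contra hu
      obtain ⟨r, r1, r2, hr⟩ := (mem_act.1 hq1).1
      have hpr : p ∉ A r := fun hc => hp1 (mem_act.2 ⟨⟨r, r1, r2, hc⟩, ⟨u, u1, u2, hu⟩⟩)
      have a1 := hO s t h2 p hp q hq
      rw [mem_sdiff] at hp hq
      have a2 := hO t r (by omega) q (mem_sdiff.2 ⟨hr, hq.2⟩) p (mem_sdiff.2 ⟨hp.1, hpr⟩)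
      linarith

open Classical in
/-- number of points of `U` in the half open range from `p` to `q` -/
noncomputable def rk (x : α → ℝ) (U : Finset α) (p q : α) : ℕ :=
  (U.filter fun r => x p ≤ x r ∧ x r < x q).card

omit [DecidableEq α] in
lemma markov {Z : Finset α} (f : α → ℝ) (hf : ∀ q ∈ Z, 0 ≤ f q) {m P : ℝ} (hm : 0 < m)
    (h : ∑ q ∈ Z, f q ≤ P) [DecidablePred fun q => m < f q] :
    ((Z.filter fun q => m < f q).card : ℝ) ≤ P / m := by
  rw [le_div_iff₀ hm, ← nsmul_eq_mul]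
  exact (card_nsmul_le_sum _ _ _ fun q hq => (mem_filter.1 hq).2.le).trans
    ((sum_le_sum_of_subset_of_nonneg (filter_subset _ _) fun q hq _ => hf q hq).trans h)

/-- OVER in abstract form -/
lemma overlap (F : Finset ℕ) (U R : ℕ → Finset α) (NB : ℕ → α → Finset α) {μ ρ π : ℝ} (hμ : 0 < μ)
    (o1 : ∀ B, R B ⊆ U B) (o2 : ∀ B, ∀ q ∈ R B, μ ≤ (NB B q).card)
    (o3 : ∀ B q, ∀ r ∈ NB B q, x r < x q ∧ (rk x (U B) r q : ℝ) ≤ ρ)
    (o4 : ∀ B B1 q, B ≠ B1 → Disjoint (NB B q) (NB B1 q))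
    (o5 : ∀ B B1, B ≠ B1 → ∑ q ∈ U B1, ((NB B q \ U B1).card : ℝ) ≤ π) :
    big F R (8 * π / μ) ≤ (1 + 8 * ρ / μ) * ∑ B ∈ F, ((R B).card : ℝ) := by
  classical
  set gl : ℕ → ℕ → Finset α := fun B B1 => (R B1).filter fun q =>
    μ / 2 ≤ (NB B q ∩ U B1).card ∧ ∃ l ∈ NB B1 q, ∀ r ∈ NB B q, x l ≤ x r with hgl
  have h1 : ∀ B1, ∑ B ∈ F, ((gl B B1).card : ℝ) ≤ 2 * ρ / μ * (R B1).card := by
    intro B1
    simp only [hgl, card_filter, Nat.cast_sum]
    rw [sum_comm, mul_comm, ← nsmul_eq_mul]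
    refine sum_le_card_nsmul _ _ _ fun q hq => ?_
    have hne : (NB B1 q).Nonempty := by
      rw [← card_pos]; exact_mod_cast hμ.trans_le (o2 B1 q hq)
    obtain ⟨l, hl, hmin⟩ := exists_min_image _ x hne
    rw [← Nat.cast_sum, ← card_filter]
    set G := F.filter fun B =>
      μ / 2 ≤ (NB B q ∩ U B1).card ∧ ∃ l ∈ NB B1 q, ∀ r ∈ NB B q, x l ≤ x r with hG
    have h2 : (G.biUnion fun B => NB B q ∩ U B1) ⊆
        (U B1).filter fun r => x l ≤ x r ∧ x r < x q := by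
      intro r hr
      obtain ⟨B, hB, hr⟩ := mem_biUnion.1 hr
      obtain ⟨l', hl', h⟩ := (mem_filter.1 hB).2.2
      rw [mem_inter] at hr
      exact mem_filter.2 ⟨hr.2, (hmin l' hl').trans (h r hr.1), (o3 B q r hr.1).1⟩
    have h3 := card_le_card h2
    rw [card_biUnion fun B _ B2 _ h =>
      (o4 B B2 q h).mono inter_subset_left inter_subset_left] at h3
    have h4 : ∑ B ∈ G, ((NB B q ∩ U B1).card : ℝ) ≤ ρ :=
      le_trans (by exact_mod_cast h3) (o3 B1 q l hl).2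
    have h5 : (G.card : ℝ) * (μ / 2) ≤ ρ := by
      rw [← nsmul_eq_mul]
      exact (card_nsmul_le_sum _ _ _ fun B hB => (mem_filter.1 hB).2.1).trans h4
    rw [le_div_iff₀ hμ]
    linarith
  have h2 : ∀ B B1, (if B = B1 ∨ 8 * π / μ < (R B ∩ R B1).card then ((R B ∩ R B1).card : ℝ)
      else 0) ≤ (if B = B1 then ((R B).card : ℝ) else 0) +
        2 * ((gl B B1).card + (gl B1 B).card) := by
    intro B B1
    have n1 := (Nat.cast_nonneg (gl B B1).card : (0 : ℝ) ≤ _)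
    have n2 := (Nat.cast_nonneg (gl B1 B).card : (0 : ℝ) ≤ _)
    by_cases hB : B = B1
    · subst hB
      simp only [true_or, if_true, inter_self]
      linarith
    simp only [hB, false_or, if_false, zero_add]
    split_ifs with hb
    swap
    · linarith
    have m1 := markov (fun q => ((NB B q \ U B1).card : ℝ)) (fun _ _ => Nat.cast_nonneg _)
      (half_pos hμ) (o5 B B1 hB)
    have m2 := markov (fun q => ((NB B1 q \ U B).card : ℝ)) (fun _ _ => Nat.cast_nonneg _)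
      (half_pos hμ) (o5 B1 B (Ne.symm hB))
    have h3 : R B ∩ R B1 ⊆ (((U B1).filter fun q => μ / 2 < ((NB B q \ U B1).card : ℝ)) ∪
        (U B).filter fun q => μ / 2 < ((NB B1 q \ U B).card : ℝ)) ∪ (gl B B1 ∪ gl B1 B) := by
      intro q hq
      rw [mem_inter] at hq
      simp only [mem_union, mem_filter, hgl]
      by_cases c1 : μ / 2 < ((NB B q \ U B1).card : ℝ)
      · exact Or.inl (Or.inl ⟨o1 _ hq.2, c1⟩)
      by_cases c2 : μ / 2 < ((NB B1 q \ U B).card : ℝ)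
      · exact Or.inl (Or.inr ⟨o1 _ hq.1, c2⟩)
      have e1 : ((NB B q \ U B1).card : ℝ) + (NB B q ∩ U B1).card = (NB B q).card := by
        exact_mod_cast card_sdiff_add_card_inter _ _
      have e2 : ((NB B1 q \ U B).card : ℝ) + (NB B1 q ∩ U B).card = (NB B1 q).card := by
        exact_mod_cast card_sdiff_add_card_inter _ _
      have d1 := o2 B q hq.1
      have d2 := o2 B1 q hq.2
      have hne : (NB B q ∪ NB B1 q).Nonempty := by
        refine Nonempty.mono subset_union_left ?_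
        rw [← card_pos]; exact_mod_cast hμ.trans_le d1
      obtain ⟨l, hl, hmin⟩ := exists_min_image _ x hne
      rcases mem_union.1 hl with hl | hl
      · exact Or.inr (Or.inr ⟨hq.1, by linarith, l, hl, fun r hr => hmin r (mem_union_right _ hr)⟩)
      · exact Or.inr (Or.inl ⟨hq.2, by linarith, l, hl, fun r hr => hmin r (mem_union_left _ hr)⟩)
    have h4 := (card_le_card h3).trans ((card_union_le _ _).trans
      (add_le_add (card_union_le _ _) (card_union_le _ _)))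
    have h5 : ((R B ∩ R B1).card : ℝ) ≤
        (((U B1).filter fun q => μ / 2 < ((NB B q \ U B1).card : ℝ)).card +
        ((U B).filter fun q => μ / 2 < ((NB B1 q \ U B).card : ℝ)).card) +
        ((gl B B1).card + (gl B1 B).card) := by exact_mod_cast h4
    have e : 8 * π / μ = 4 * (π / (μ / 2)) := by field_simp; ring
    linarith
  refine (sum_le_sum fun B _ => sum_le_sum fun B1 _ => h2 B B1).trans ?_
  simp only [sum_add_distrib, ← mul_sum]
  have h3 : ∑ B ∈ F, ∑ B1 ∈ F, (if B = B1 then ((R B).card : ℝ) else 0) =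
      ∑ B ∈ F, ((R B).card : ℝ) := sum_congr rfl fun B hB => by rw [sum_ite_eq, if_pos hB]
  have h4 : ∑ B1 ∈ F, ∑ B ∈ F, ((gl B B1).card : ℝ) ≤ 2 * ρ / μ * ∑ B ∈ F, ((R B).card : ℝ) := by
    rw [mul_sum]; exact sum_le_sum fun B1 _ => h1 B1
  have h5 : ∑ B ∈ F, ∑ B1 ∈ F, ((gl B B1).card : ℝ) = ∑ B1 ∈ F, ∑ B ∈ F, ((gl B B1).card : ℝ) :=
    sum_comm
  rw [h3, h5]
  have e : (1 + 8 * ρ / μ) * ∑ B ∈ F, ((R B).card : ℝ) = ∑ B ∈ F, ((R B).card : ℝ) +
    4 * (2 * ρ / μ * ∑ B ∈ F, ((R B).card : ℝ)) := by ring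
  linarith

lemma big_mono {F F' : Finset ℕ} {Y R : ℕ → Finset α} (om : ℝ) (hF : F' ⊆ F)
    (h : ∀ B, Y B ⊆ R B) : big F' Y om ≤ big F R om := by
  have h1 : ∀ B B1, (if B = B1 ∨ om < (Y B ∩ Y B1).card then ((Y B ∩ Y B1).card : ℝ) else 0) ≤
      if B = B1 ∨ om < (R B ∩ R B1).card then ((R B ∩ R B1).card : ℝ) else 0 := by
    intro B B1
    have h2 : ((Y B ∩ Y B1).card : ℝ) ≤ (R B ∩ R B1).card := by
      exact_mod_cast card_le_card (inter_subset_inter (h B) (h B1))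
    split_ifs with c1 c2
    · exact h2
    · exact absurd (c1.imp_right fun c => c.trans_le h2) c2
    · exact Nat.cast_nonneg _
    · exact le_rfl
  have h2 : ∀ B B1, (0 : ℝ) ≤
      if B = B1 ∨ om < (R B ∩ R B1).card then ((R B ∩ R B1).card : ℝ) else 0 := by
    intro B B1
    split_ifs
    · exact Nat.cast_nonneg _
    · exact le_rfl
  refine (sum_le_sum fun B _ => (sum_le_sum fun B1 _ => h1 B B1).trans
    (sum_le_sum_of_subset_of_nonneg hF fun B1 _ _ => h2 B B1)).trans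
    (sum_le_sum_of_subset_of_nonneg hF fun B _ _ => sum_nonneg fun B1 _ => h2 B B1)

end Pool.Agent.P.MP_77a832_co.KB
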