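import Pool.Agent.P.MP_77a832_co.KB.Mono

/-! Points with many near neighbours inside a base window. -/

set_option autoImplicit false

namespace Pool.Agent.P.MP_77a832_co.KB

open Finset

/-- fine boundaries `u`, fine net steps `s, t`, thresholds -/
structure Par (α : Type*) where
  x : α → ℝ
  A : ℕ → Finset α
  u : ℕ → ℕ
  s : ℕ → ℕ
  t : ℕ → ℕ
  d1 : ℕ
  k1 : ℕ
  Hl : ℝ
  Hm : ℝ
  G : ℝ
  ρ : ℝ
  γ : ℝ

namespace Par

variable {α : Type*} [DecidableEq α] (P : Par α)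

def d : ℕ := P.k1 + P.d1
def U (B : ℕ) : Finset α := win P.A (up P.u P.d) B
def X (i : ℕ) : Finset α := P.A (P.t i) \ P.A (P.s i)
def Y (i : ℕ) : Finset α := P.A (P.s i) \ P.A (P.t i)

open Classical in
noncomputable def Nb (B i : ℕ) (q : α) : Finset α :=
  (P.X i).filter fun p => (rk P.x (P.U B) p q : ℝ) ≤ P.ρ

def ok (B i : ℕ) : Prop :=
  P.Hl ≤ (P.Y i).card ∧ ((P.Y i).card : ℝ) ≤ P.Hm ∧ ((P.U B).card : ℝ) ≤ P.G

open Classical in
noncomputable def gd (B : ℕ) (q : α) : Finset ℕ :=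
  (ch P.d B).filter fun i => q ∈ P.Y i ∧ P.ok B i ∧ (P.Y i).card ≤ 2 * (P.Nb B i q).card

noncomputable def NB (B : ℕ) (q : α) : Finset α := (P.gd B q).biUnion fun i => P.Nb B i q

open Classical in
noncomputable def R (B : ℕ) : Finset α :=
  (P.U B).filter fun q => P.γ ≤ (P.gd B q).card ∧ 2 ≤ vis P.A (up P.u P.d1) P.k1 q B

structure Ok (K : ℝ) : Prop where
  hK : 1 ≤ K
  mo : Monotone P.u
  ord : Ord P.x P.A
  bal : Bal P.A
  star : Star K P.A
  st : ∀ i, P.u i ≤ P.s i ∧ P.s i ≤ P.t i ∧ P.t i ≤ P.u (i + 1)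
  l0 : 0 < P.Hl
  m0 : 0 ≤ P.Hm
  g0 : 0 ≤ P.G
  r0 : 0 < P.ρ
  c0 : 0 < P.γ

variable {P} {K n : ℝ}

lemma mem_gd {B i : ℕ} {q : α} : i ∈ P.gd B q ↔
    i ∈ ch P.d B ∧ q ∈ P.Y i ∧ P.ok B i ∧ (P.Y i).card ≤ 2 * (P.Nb B i q).card := by
  simp only [gd, mem_filter]

lemma mem_Nb {B i : ℕ} {p q : α} :
    p ∈ P.Nb B i q ↔ p ∈ P.X i ∧ (rk P.x (P.U B) p q : ℝ) ≤ P.ρ := by
  simp only [Nb, mem_filter]

lemma mem_R {B : ℕ} {q : α} : q ∈ P.R B ↔
    q ∈ P.U B ∧ P.γ ≤ (P.gd B q).card ∧ 2 ≤ vis P.A (up P.u P.d1) P.k1 q B := by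
  simp only [R, mem_filter]

lemma Ok.Y_sub (h : P.Ok K) (i : ℕ) : P.Y i ⊆ win P.A P.u i :=
  sd_sub (h.st i).1 ((h.st i).2.1.trans (h.st i).2.2) ((h.st i).1.trans (h.st i).2.1) (h.st i).2.2

lemma Ok.o2 (h : P.Ok K) (B : ℕ) (q : α) (hq : q ∈ P.R B) :
    P.γ * P.Hl / 2 ≤ (P.NB B q).card := by
  rw [NB, card_biUnion]
  · have h1 : ((P.gd B q).card : ℝ) * (P.Hl / 2) ≤ ∑ i ∈ P.gd B q, ((P.Nb B i q).card : ℝ) := by
      rw [← nsmul_eq_mul]
      refine card_nsmul_le_sum _ _ _ fun i hi => ?_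
      obtain ⟨-, -, h2, h3⟩ := mem_gd.1 hi
      have h4 : ((P.Y i).card : ℝ) ≤ 2 * (P.Nb B i q).card := by exact_mod_cast h3
      linarith [h2.1]
    have h2 := mul_le_mul_of_nonneg_right (mem_R.1 hq).2.1 (half_pos h.l0).le
    push_cast
    linarith
  · intro i hi j hj hij
    refine disjoint_left.2 fun p h1 h2 => hij ?_
    exact step_uniq h.ord h.mo h.st (mem_Nb.1 h1).1 (mem_gd.1 hi).2.1 (mem_Nb.1 h2).1
      (mem_gd.1 hj).2.1

lemma Ok.o3 (h : P.Ok K) (B : ℕ) (q r : α) (hr : r ∈ P.NB B q) :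
    P.x r < P.x q ∧ (rk P.x (P.U B) r q : ℝ) ≤ P.ρ := by
  obtain ⟨i, hi, hr⟩ := mem_biUnion.1 hr
  exact ⟨h.ord _ _ (h.st i).2.1 r (mem_Nb.1 hr).1 q (mem_gd.1 hi).2.1, (mem_Nb.1 hr).2⟩

lemma Ok.o4 (h : P.Ok K) (B B1 : ℕ) (q : α) (hB : B ≠ B1) : Disjoint (P.NB B q) (P.NB B1 q) := by
  refine disjoint_left.2 fun p h1 h2 => hB ?_
  obtain ⟨i, hi, h1⟩ := mem_biUnion.1 h1
  obtain ⟨j, hj, h2⟩ := mem_biUnion.1 h2
  have e := step_uniq h.ord h.mo h.st (mem_Nb.1 h1).1 (mem_gd.1 hi).2.1 (mem_Nb.1 h2).1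
    (mem_gd.1 hj).2.1
  rw [← mem_ch.1 (mem_gd.1 hi).1, ← mem_ch.1 (mem_gd.1 hj).1, e]

lemma Ok.mono (h : P.Ok K) (B : ℕ) {Φ : α → Prop} [DecidablePred Φ] [DecidablePred (P.ok B)]
    (hΦ : Ini P.A Φ (up P.u P.d B) (up P.u P.d (B + 1))) :
    ∑ i ∈ (ch P.d B).filter (P.ok B), (((P.X i).filter Φ).card : ℝ) *
      ((P.Y i).filter fun q => ¬ Φ q).card ≤ P.Hm * P.G := by
  rcases ((ch P.d B).filter (P.ok B)).eq_empty_or_nonempty with e | ⟨i, hi⟩
  · rw [e, sum_empty]; exact mul_nonneg h.m0 h.g0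
  · exact (mono_sum h.bal h.mo hΦ h.st (filter_subset _ _) h.m0
      fun j hj => (mem_filter.1 hj).2.2.1).trans
      (mul_le_mul_of_nonneg_left (mem_filter.1 hi).2.2.2 h.m0)

lemma Ok.o5 (h : P.Ok K) (B B1 : ℕ) (hB : B ≠ B1) :
    ∑ q ∈ P.U B1, ((P.NB B q \ P.U B1).card : ℝ) ≤ P.Hm * P.G := by
  classical
  have hm := up_mono h.mo P.d
  obtain ⟨Φ, h1, h2, h3⟩ := ini_other h.ord (a := up P.u P.d B) (b := up P.u P.d (B + 1))
    (a1 := up P.u P.d B1) (b1 := up P.u P.d (B1 + 1))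
    ((lt_or_gt_of_ne hB).symm.imp (fun c => hm c) fun c => hm c)
  refine le_trans ?_ (h.mono B h1)
  have h4 : ∀ q ∈ P.U B1, ((P.NB B q \ P.U B1).card : ℝ) ≤
      ∑ i ∈ (ch P.d B).filter (P.ok B),
        (((P.X i).filter Φ).card : ℝ) * if q ∈ P.Y i then 1 else 0 := by
    intro q hq
    have h5 : P.NB B q \ P.U B1 ⊆ ((ch P.d B).filter (P.ok B)).biUnion
        fun i => if q ∈ P.Y i then (P.X i).filter Φ else ∅ := by
      intro p hp
      obtain ⟨i, hi, hp1⟩ := mem_biUnion.1 (mem_sdiff.1 hp).1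
      obtain ⟨c1, c2, c3, -⟩ := mem_gd.1 hi
      refine mem_biUnion.2 ⟨i, mem_filter.2 ⟨c1, c3⟩, ?_⟩
      rw [if_pos c2]
      exact mem_filter.2 ⟨(mem_Nb.1 hp1).1, h3 _ _ ((ch_bd h.mo c1).1.trans (h.st i).1)
        (h.st i).2.1 ((h.st i).2.2.trans (ch_bd h.mo c1).2) q c2 hq p (mem_Nb.1 hp1).1
        (mem_sdiff.1 hp).2⟩
    have h6 := (card_le_card h5).trans card_biUnion_le
    refine le_trans (Nat.cast_le.2 h6) (le_of_eq ?_)
    rw [Nat.cast_sum]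
    refine sum_congr rfl fun i _ => ?_
    split_ifs <;> simp
  refine (sum_le_sum h4).trans ?_
  rw [sum_comm]
  refine sum_le_sum fun i _ => ?_
  rw [← mul_sum, sum_boole]
  refine mul_le_mul_of_nonneg_left (Nat.cast_le.2 (card_le_card fun q hq => ?_))
    (Nat.cast_nonneg _)
  exact mem_filter.2 ⟨(mem_filter.1 hq).2, h2 q (mem_filter.1 hq).1⟩

lemma Ok.big_le (h : P.Ok K) (F : Finset ℕ) :
    big F P.R (8 * (P.Hm * P.G) / (P.γ * P.Hl / 2)) ≤
      (1 + 8 * P.ρ / (P.γ * P.Hl / 2)) * ∑ B ∈ F, ((P.R B).card : ℝ) :=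
  overlap F P.U P.R P.NB (half_pos (mul_pos h.c0 h.l0)) (fun _ _ hq => (mem_R.1 hq).1) h.o2 h.o3
    h.o4 h.o5

open Classical in
/-- few points have mostly far neighbours -/
lemma Ok.far (h : P.Ok K) (B : ℕ) :
    ∑ i ∈ ch P.d B, (((P.Y i).filter fun q =>
      P.ok B i ∧ 2 * (P.Nb B i q).card < (P.Y i).card).card : ℝ) ≤
      2 * (P.Hm * P.G * P.G) / (P.Hl * P.ρ) := by
  have hp := mul_pos h.l0 h.r0
  have h0 : 0 ≤ P.Hm * P.G := mul_nonneg h.m0 h.g0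
  have h1 : ∑ i ∈ (ch P.d B).filter (P.ok B), ∑ q ∈ P.Y i, ∑ p ∈ P.X i,
      (rk P.x (P.U B) p q : ℝ) ≤ P.Hm * P.G * P.G := by
    rcases ((ch P.d B).filter (P.ok B)).eq_empty_or_nonempty with e | ⟨j, hj⟩
    · rw [e, sum_empty]; exact mul_nonneg h0 h.g0
    have e : ∀ i, ∑ q ∈ P.Y i, ∑ p ∈ P.X i, (rk P.x (P.U B) p q : ℝ) =
        ∑ r ∈ P.U B, (((P.X i).filter fun p => P.x p ≤ P.x r).card : ℝ) *
          ((P.Y i).filter fun q => ¬ P.x q ≤ P.x r).card := by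
      intro i
      simp only [rk, card_filter, Nat.cast_sum, sum_mul_sum]
      rw [sum_comm]
      simp only [sum_comm (s := P.Y i) (t := P.U B)]
      rw [sum_comm]
      refine sum_congr rfl fun r _ => sum_congr rfl fun p _ => sum_congr rfl fun q _ => ?_
      by_cases c1 : P.x p ≤ P.x r <;> by_cases c2 : P.x r < P.x q <;> simp [c1, c2]
    simp only [e]
    rw [sum_comm]
    refine (sum_le_card_nsmul _ _ _ fun r _ => h.mono B (ini_left h.ord (P.x r) _ _)).trans ?_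
    rw [nsmul_eq_mul, mul_comm]
    exact mul_le_mul_of_nonneg_left (mem_filter.1 hj).2.2.2 h0
  rw [le_div_iff₀ hp, sum_mul, sum_filter] at *
  have h2 : ∀ i ∈ ch P.d B, (((P.Y i).filter fun q =>
      P.ok B i ∧ 2 * (P.Nb B i q).card < (P.Y i).card).card : ℝ) * (P.Hl * P.ρ) ≤
      2 * if P.ok B i then ∑ q ∈ P.Y i, ∑ p ∈ P.X i, (rk P.x (P.U B) p q : ℝ) else 0 := by
    intro i _
    split_ifs with c
    swap
    · simp [c]
    rw [mul_sum, ← nsmul_eq_mul]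
    refine (card_nsmul_le_sum _ _ _ fun q hq => ?_).trans
      (sum_le_sum_of_subset_of_nonneg (filter_subset _ _) fun q _ _ =>
        mul_nonneg (by norm_num) (sum_nonneg fun _ _ => Nat.cast_nonneg _))
    have e1 : ((P.Nb B i q).card : ℝ) +
        ((P.X i).filter fun p => ¬ (rk P.x (P.U B) p q : ℝ) ≤ P.ρ).card = (P.Y i).card := by
      rw [Y, h.bal.sd]
      exact_mod_cast card_filter_add_card_filter_not _
    have e2 : 2 * ((P.Nb B i q).card : ℝ) < (P.Y i).card := by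
      exact_mod_cast (mem_filter.1 hq).2.2
    have e3 : (((P.X i).filter fun p => ¬ (rk P.x (P.U B) p q : ℝ) ≤ P.ρ).card : ℝ) * P.ρ ≤
        ∑ p ∈ P.X i, (rk P.x (P.U B) p q : ℝ) := by
      rw [← nsmul_eq_mul]
      exact (card_nsmul_le_sum _ _ _ fun p hp => (not_le.1 (mem_filter.1 hp).2).le).trans
        (sum_le_sum_of_subset_of_nonneg (filter_subset _ _) fun _ _ _ => Nat.cast_nonneg _)
    have e4 : P.Hl * P.ρ ≤
        2 * (((P.X i).filter fun p => ¬ (rk P.x (P.U B) p q : ℝ) ≤ P.ρ).card : ℝ) * P.ρ :=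
      mul_le_mul_of_nonneg_right (by linarith [c.1]) h.r0.le
    linarith
  refine (sum_le_sum h2).trans ?_
  rw [← mul_sum]
  linarith

open Classical in
lemma poor (h : P.Ok K) (B : ℕ) :
    ∑ i ∈ ch P.d B, (((P.U B).filter fun q =>
      i ∈ P.gd B q ∧ ((P.gd B q).card : ℝ) < P.γ).card : ℝ) ≤ P.γ * (P.U B).card := by
  simp only [card_filter, Nat.cast_sum]
  rw [sum_comm, mul_comm, ← nsmul_eq_mul]
  refine sum_le_card_nsmul _ _ _ fun q _ => ?_
  rw [← Nat.cast_sum, ← card_filter]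
  by_cases c : ((P.gd B q).card : ℝ) < P.γ
  · exact le_trans (Nat.cast_le.2 (card_le_card fun i hi => (mem_filter.1 hi).2.1)) c.le
  · simp [c, h.c0.le]

lemma Ok.conf (h : P.Ok K) {B i : ℕ} {q : α} (hi : i ∈ P.gd B q)
    (h1 : vis P.A (up P.u P.d1) P.k1 q B < 2) :
    (P.gd B q).card ≤ vis P.A P.u P.d1 q (i / 16 ^ P.d1) := by
  have h2 : ∀ j ∈ P.gd B q, j / 16 ^ P.d1 ∈
      (ch P.k1 B).filter fun V => q ∈ win P.A (up P.u P.d1) V := by
    intro j hj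
    refine mem_filter.2 ⟨mem_ch.2 ?_, win_sub h.mo (mem_ch.2 rfl) (h.Y_sub j (mem_gd.1 hj).2.1)⟩
    rw [Nat.div_div_eq_div_mul, ← pow_add, add_comm]
    exact mem_ch.1 (mem_gd.1 hj).1
  refine card_le_card fun j hj => mem_filter.2 ⟨mem_ch.2 ?_, h.Y_sub j (mem_gd.1 hj).2.1⟩
  exact card_le_one.1 (Nat.lt_succ_iff.1 h1) _ (h2 j hj) _ (h2 i hi)

open Classical in
lemma Ok.split (h : P.Ok K) (B : ℕ) :
    ∑ i ∈ ch P.d B, ((P.Y i).card : ℝ) ≤ 16 ^ P.d * P.Hl +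
      ∑ i ∈ ch P.d B, (if P.Hm < (win P.A P.u i).card then ((win P.A P.u i).card : ℝ) else 0) +
      K * 2 ^ P.d * (if P.G < (P.U B).card then ((P.U B).card : ℝ) else 0) +
      2 * (P.Hm * P.G * P.G) / (P.Hl * P.ρ) + P.γ * (P.U B).card +
      ∑ i ∈ ch P.d B, (((win P.A P.u i).filter fun q =>
        P.γ ≤ vis P.A P.u P.d1 q (i / 16 ^ P.d1)).card : ℝ) +
      ∑ i ∈ ch P.d B, ((P.R B ∩ win P.A P.u i).card : ℝ) := by
  have h1 : ∀ i ∈ ch P.d B, ((P.Y i).card : ℝ) ≤ P.Hl +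
      (if P.Hm < (win P.A P.u i).card then ((win P.A P.u i).card : ℝ) else 0) +
      (if P.G < (P.U B).card then ((win P.A P.u i).card : ℝ) else 0) +
      (((P.Y i).filter fun q => P.ok B i ∧ 2 * (P.Nb B i q).card < (P.Y i).card).card : ℝ) +
      (((P.U B).filter fun q => i ∈ P.gd B q ∧ ((P.gd B q).card : ℝ) < P.γ).card : ℝ) +
      (((win P.A P.u i).filter fun q => P.γ ≤ vis P.A P.u P.d1 q (i / 16 ^ P.d1)).card : ℝ) +
      ((P.R B ∩ win P.A P.u i).card : ℝ) := by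
    intro i hi
    have w : ((P.Y i).card : ℝ) ≤ (win P.A P.u i).card := Nat.cast_le.2 (card_le_card (h.Y_sub i))
    have n0 : (0 : ℝ) ≤ (win P.A P.u i).card := Nat.cast_nonneg _
    have n2 : (0 : ℝ) ≤ if P.Hm < (win P.A P.u i).card then ((win P.A P.u i).card : ℝ) else 0 := by
      split_ifs; exacts [n0, le_rfl]
    have n3 : (0 : ℝ) ≤ if P.G < (P.U B).card then ((win P.A P.u i).card : ℝ) else 0 := by
      split_ifs; exacts [n0, le_rfl]
    set S4 := (P.Y i).filter fun q => P.ok B i ∧ 2 * (P.Nb B i q).card < (P.Y i).card with h4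
    set S5 := (P.U B).filter fun q => i ∈ P.gd B q ∧ ((P.gd B q).card : ℝ) < P.γ with h5
    set S6 := (win P.A P.u i).filter fun q => P.γ ≤ vis P.A P.u P.d1 q (i / 16 ^ P.d1) with h6
    have n4 : (0 : ℝ) ≤ S4.card := Nat.cast_nonneg _
    have n5 : (0 : ℝ) ≤ S5.card := Nat.cast_nonneg _
    have n6 : (0 : ℝ) ≤ S6.card := Nat.cast_nonneg _
    have n7 : (0 : ℝ) ≤ (P.R B ∩ win P.A P.u i).card := Nat.cast_nonneg _
    have l0 := h.l0
    by_cases c : P.ok B i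
    · have h2 : P.Y i ⊆ (S4 ∪ S5) ∪ (S6 ∪ P.R B ∩ win P.A P.u i) := by
        intro q hq
        have q1 := h.Y_sub i hq
        have q2 : q ∈ P.U B := win_sub h.mo hi q1
        simp only [mem_union, h4, h5, h6, mem_filter, mem_inter]
        by_cases c1 : 2 * (P.Nb B i q).card < (P.Y i).card
        · exact Or.inl (Or.inl ⟨hq, c, c1⟩)
        have q3 : i ∈ P.gd B q := mem_gd.2 ⟨hi, hq, c, not_lt.1 c1⟩
        by_cases c2 : ((P.gd B q).card : ℝ) < P.γ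
        · exact Or.inl (Or.inr ⟨q2, q3, c2⟩)
        by_cases c3 : vis P.A (up P.u P.d1) P.k1 q B < 2
        · exact Or.inr (Or.inl ⟨q1, (not_lt.1 c2).trans (Nat.cast_le.2 (h.conf q3 c3))⟩)
        · exact Or.inr (Or.inr ⟨mem_R.2 ⟨q2, not_lt.1 c2, not_lt.1 c3⟩, q1⟩)
      have h3 := (card_le_card h2).trans ((card_union_le _ _).trans
        (add_le_add (card_union_le _ _) (card_union_le _ _)))
      have h7 : ((P.Y i).card : ℝ) ≤ (S4.card + S5.card) +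
          (S6.card + (P.R B ∩ win P.A P.u i).card) := by exact_mod_cast h3
      linarith
    · simp only [ok, not_and_or, not_le] at c
      rcases c with c | c | c
      · linarith
      · rw [if_pos (c.trans_le w)] at *; linarith
      · rw [if_pos c] at *; linarith
  refine (sum_le_sum h1).trans ?_
  simp only [sum_add_distrib, sum_const, card_ch, nsmul_eq_mul, Nat.cast_pow, Nat.cast_ofNat]
  have h2 : ∑ i ∈ ch P.d B, (if P.G < (P.U B).card then ((win P.A P.u i).card : ℝ) else 0) ≤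
      K * 2 ^ P.d * (if P.G < (P.U B).card then ((P.U B).card : ℝ) else 0) := by
    split_ifs
    · exact sum_ch_le h.hK h.star h.mo P.d B
    · simp
  linarith [h.far B, poor h B]

/-- the total fine activity is carried by the rich points -/
lemma Ok.total (h : P.Ok K) {J : ℕ} (h0 : 0 < n)
    (hn : ((act P.A (P.u 0) (P.u (16 ^ (J + P.d)))).card : ℝ) ≤ n) {E z : ℝ} (hE : 0 < E)
    (hz : 1 ≤ z) (e1 : P.Hm = K * E ^ 4 * (n / 8 ^ (J + P.d))) (e2 : P.G = K * E ^ 4 * (n / 8 ^ J))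
    (e3 : z ^ 4 * 2 ^ P.d1 ≤ P.γ) :
    ∑ i ∈ range (16 ^ (J + P.d)), ((P.Y i).card : ℝ) ≤ 16 ^ J * (16 ^ P.d * P.Hl) +
      K * n * 2 ^ (J + P.d) / E + K * 2 ^ P.d * (K * n * 2 ^ J / E) +
      16 ^ J * (2 * (P.Hm * P.G * P.G) / (P.Hl * P.ρ)) + P.γ * (K * n * 2 ^ J) +
      K ^ 2 * 2 ^ P.d1 / z * (K * n * 2 ^ (J + P.k1)) +
      ∑ B ∈ range (16 ^ J), ∑ i ∈ ch P.d B, ((P.R B ∩ win P.A P.u i).card : ℝ) := by
  classical
  have hK := h.hK
  have hb : ((act P.A (up P.u P.d 0) (up P.u P.d (16 ^ J))).card : ℝ) ≤ n := by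
    simpa only [up, zero_mul, ← pow_add] using hn
  have hm : ((act P.A (up P.u P.d1 0) (up P.u P.d1 (16 ^ (J + P.k1)))).card : ℝ) ≤ n := by
    simpa only [up, zero_mul, ← pow_add, d, add_assoc] using hn
  have a2 := heavy hK h.star h.mo h0 hn hE
  have a3 := heavy hK h.star (up_mono h.mo P.d) h0 hb hE
  have a5 := top_sum hK h.star (up_mono h.mo P.d) hb
  have a6 := top_sum hK h.star (up_mono h.mo P.d1) hm
  rw [← e1, pow_add 16, sum_ch] at a2
  rw [← e2] at a3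
  have a7 : ∑ B ∈ range (16 ^ J), ∑ i ∈ ch P.d B, (((win P.A P.u i).filter fun q =>
      P.γ ≤ vis P.A P.u P.d1 q (i / 16 ^ P.d1)).card : ℝ) ≤
      K ^ 2 * 2 ^ P.d1 / z * (K * n * 2 ^ (J + P.k1)) := by
    rw [← sum_ch, d, pow_add 16, ← mul_assoc, ← pow_add, sum_ch]
    refine le_trans ?_ (mul_le_mul_of_nonneg_left a6 (by positivity))
    rw [mul_sum]
    refine sum_le_sum fun V _ => le_trans (le_of_eq ?_) (up_one hK h.star h.mo P.d1 V hz e3)
    exact sum_congr rfl fun i hi => by rw [mem_ch.1 hi]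
  rw [pow_add 16, sum_ch]
  refine (sum_le_sum fun B _ => h.split B).trans ?_
  simp only [sum_add_distrib, sum_const, card_range, nsmul_eq_mul, Nat.cast_pow, Nat.cast_ofNat,
    ← mul_sum]
  have b3 := mul_le_mul_of_nonneg_left a3 (show 0 ≤ K * 2 ^ P.d by positivity)
  have b5 := mul_le_mul_of_nonneg_left a5 h.c0.le
  simp only [U]
  refine add_le_add (add_le_add (add_le_add (add_le_add (add_le_add (add_le_add le_rfl ?_) ?_)
    le_rfl) b5) ?_) le_rfl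
  · convert a2
  · refine le_trans (le_of_eq ?_) b3
    exact congrArg _ (sum_congr rfl fun _ _ => if_congr Iff.rfl rfl rfl)
  · convert a7

/-- many base windows have many rich points -/
lemma Ok.many (h : P.Ok K) (J : ℕ) {r τ : ℝ} (hτ : 0 ≤ τ)
    (e : K ^ 4 * r * P.G ^ 3 * (2 ^ P.d) ^ 4 ≤ τ ^ 4) [DecidablePred fun B => r ≤ (P.R B).card] :
    ∑ B ∈ range (16 ^ J), ∑ i ∈ ch P.d B, ((P.R B ∩ win P.A P.u i).card : ℝ) ≤ 16 ^ J * τ +
      ((range (16 ^ J)).filter fun B => r ≤ (P.R B).card).card * (K * 2 ^ P.d * P.G) := by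
  have hK := h.hK
  have g0 := h.g0
  have h1 : ∀ B, ∑ i ∈ ch P.d B, ((P.R B ∩ win P.A P.u i).card : ℝ) ≤
      τ + if r ≤ (P.R B).card then K * 2 ^ P.d * P.G else 0 := by
    intro B
    rcases (P.R B).eq_empty_or_nonempty with e0 | ⟨q, hq⟩
    · simp only [e0, empty_inter, card_empty, Nat.cast_zero, sum_const_zero]
      split_ifs <;> positivity
    have hne : (P.gd B q).Nonempty := by
      rw [← card_pos]; exact_mod_cast h.c0.trans_le (mem_R.1 hq).2.1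
    obtain ⟨j, hj⟩ := hne
    have hG : ((win P.A (up P.u P.d) B).card : ℝ) ≤ P.G := (mem_gd.1 hj).2.2.1.2.2
    split_ifs with c
    · have h2 := sum_ch_le hK h.star h.mo P.d B
      have h3 : ∑ i ∈ ch P.d B, ((P.R B ∩ win P.A P.u i).card : ℝ) ≤
          ∑ i ∈ ch P.d B, ((win P.A P.u i).card : ℝ) :=
        sum_le_sum fun i _ => Nat.cast_le.2 (card_le_card inter_subset_right)
      have h4 := mul_le_mul_of_nonneg_left hG (show 0 ≤ K * 2 ^ P.d by positivity)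
      linarith
    · rw [add_zero]
      have hr := (not_le.1 c).le
      have r0 : 0 ≤ r := le_trans (Nat.cast_nonneg _) hr
      refine le_of_four hτ ((star_ch h.star h.mo P.d B (P.R B)).trans (le_trans ?_ e))
      gcongr
  refine (sum_le_sum fun B _ => h1 B).trans (le_of_eq ?_)
  rw [sum_add_distrib, ← sum_filter]
  simp

end Par

end Pool.Agent.P.MP_77a832_co.KB
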